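import Pool.Agent.V11201.PS.Dilate

set_option autoImplicit false

namespace Pool.Agent.Results.MP_2e62d5_co.Syndetic

/-- Every syndetic set of positive integers contains the product set of two infinite sets of
positive integers. -/
theorem result (S : Set ℕ) (hS : ∃ L : ℕ, ∀ n, 1 ≤ n → ∃ m ∈ S, n ≤ m ∧ m ≤ n + L) :
    ∃ A B : Set ℕ, A.Infinite ∧ B.Infinite ∧ (∀ a ∈ A, 0 < a) ∧ (∀ b ∈ B, 0 < b) ∧
      ∀ a ∈ A, ∀ b ∈ B, a * b ∈ S := by
  obtain ⟨L, hL⟩ := hS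
  exact V11201.PS.main S L hL

end Pool.Agent.Results.MP_2e62d5_co.Syndetic
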